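import Mathlib
import Pool.Agent.Q182.DCDefs
import Pool.Agent.Q182.DCHeis

/-!
# Semi-Zariski sigma-discreteness under finite double centralizers (MP_9d0418_gt): both answers are
negative
-/

namespace Pool.Agent.Results.MP_9d0418_gt.NotSigmaDiscrete

open Q182.DC Topology

/-- There is a group with finite double centralizers (the double centralizer of each element has
at most four elements) whose semi-Zariski topology is not `σ`-discrete. -/
theorem result : ∃ (G : Type) (_ : Group G), FiniteDoubleCentralizers G ∧
    (∀ x : G, (Cen (Cen {x})).encard ≤ 4) ∧ ¬ IsSigmaDiscreteIn (semiZariski G) Set.univ :=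
  ⟨Heis, inferInstance, heis_finite, heis_le, heis_not_sigma⟩

end Pool.Agent.Results.MP_9d0418_gt.NotSigmaDiscrete
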